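import Pool.Agent.Helper99.Aff.Lim2
import Pool.Agent.Helper99.Alg.Pos

set_option autoImplicit false

/-!
# Complete sets for ZPP, R and BPP: affinely relativizing techniques do not decide the question

Let `K i` be any family of finite fields of characteristic 2 (for instance all of them) and let the
strings `s` be read, in any way, as queries `(m, i, y, b)`: number of variables, field, point of
`(K i)^m`, Boolean function of the value; the only conditions are `m ≤ |s|` and `|K i| ≤ 2^(|s|+1)`. For
an oracle `A` let `E` be its multilinear extension over these fields and `O = Ext dec A E` the
oracle that answers both queries to `A` and queries to `E` (the affine oracles of Aydinlioglu and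
Bach).

1. There is an `A` such that relative to `A` and relative to `O` none of ZPP, R, BPP has a complete
   set, not even for Turing reductions. Moreover no set in `R^O ∪ BPP^O` is hard for `ZPP^A` under
   polynomial time Turing reductions computed with `O`.
2. There is an `A` such that relative to `A` and relative to `O` all three classes have complete
   sets for many-one reductions.

The multilinear extension is determined by the oracle and a query to it reads all strings of length
`m`: it gives the values of at most `|s|` linear forms over `F_2` (the coordinates of the value). So
the adversary can not change the oracle without changing many answers, and the argument is not the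
one of the theorem on algebrization (extensions of degree two). Proof of 1: the test set of a
probabilistic machine `P` uses two blocks for every input `x`, a block has `2^d` positions and each
position consists of two bits; a position is on if both bits are one. More than three quarters of
one block and no position of the other one are on, or `P` has lost its gap. Now let `P` keep its gap
at all contents, let `g` be a Turing reduction, which by repeated runs of `P` turns into a
probabilistic computation `M` with a gap and few linear forms as queries. We begin with the law in
which every position takes the three values other than `(1,1)` with probability 1/3 and raise the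
probability `p` of `(1,1)` at the positions of one block in small steps from 0 to 15/16. All
nontrivial characters of the law of a position have absolute value at most 11/12 (`Law.lean`,
`fp_hat`), so the values of linear forms whose sums all touch many positions are nearly uniform
(`Four.lean`, `class_est`). At all times there is a class, given by frozen positions and by the
values of few linear forms with long sums, in which `M` answers 0 with probability at least one half
(`Law.lean`, `Inv`). A step: the class is refined until `M` answers 1 only rarely (`Proc.lean`,
`refine_one`), short sums are made constant by freezing few positions (`Inv.longify`), and then all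
leaves of `M` keep their probabilities up to a small factor when `p` is raised (`Leaf.lean`,
`leaf_ratio`); here few positions, those which appear in the short sums of the leaf, have to be
fixed, and the rest is uniform by the estimate for characters. At the end `M` answers 0 at a content
whose first block is dense (`Step.lean`, `par_main`), and the same holds with the other block and
the answer 1. So `g` is wrong at some content. The proof of 2 is a direct construction (`Pos.lean`).
-/

namespace Pool.Agent.Results.MP_a8d575_lc.Affine

open Pool.Agent.Helper56.PT Pool.Agent.Helper99.Alg Pool.Agent.Helper99.Aff MvPolynomial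

/-- For every family of finite fields of characteristic 2 and every coding of queries: (1) there is
an oracle such that relative to the oracle and relative to its multilinear extension ZPP, R and BPP
have no complete sets, neither for many-one nor for Turing reductions, and no set in R or BPP
relative to the extension is hard for ZPP relative to the oracle, for Turing reductions relative to
the extension; (2) there is an oracle such that relative to the oracle and relative to its
multilinear extension all three classes have complete sets. -/
theorem result {ι : Type} {K : ι → Type} [∀ i, Field (K i)] [∀ i, Finite (K i)]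
    [∀ i, CharP (K i) 2] (dec : List Bool → Query ι K) (hdec : ∀ s, (dec s).m ≤ s.length)
    (hK : ∀ s, Nat.card (K (dec s).i) ≤ 2 ^ (s.length + 1)) :
    (∃ (A : List Bool → Bool) (E : ∀ (m : ℕ) (i : ι), MvPolynomial (Fin m) (K i)),
      IsExt 1 A E ∧
      (∀ O ∈ ({A, Ext dec A E} : Set (List Bool → Bool)),
        ∀ C ∈ ({InZPP O, InR O, InBPP O} : Set (Set (List Bool) → Prop)),
          ¬ HasComplete O C ∧ ¬ HasTComplete O C) ∧
      ∀ L : Set (List Bool), InR (Ext dec A E) L ∨ InBPP (Ext dec A E) L →
        ∃ B : Set (List Bool), InZPP A B ∧ ¬ TRed (Ext dec A E) B L) ∧
    ∃ (A : List Bool → Bool) (E : ∀ (m : ℕ) (i : ι), MvPolynomial (Fin m) (K i)),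
      IsExt 1 A E ∧
      ∀ O ∈ ({A, Ext dec A E} : Set (List Bool → Bool)),
        ∀ C ∈ ({InZPP O, InR O, InBPP O} : Set (Set (List Bool) → Prop)), HasComplete O C := by
  constructor
  · obtain ⟨A, h⟩ := neg_world2 hdec hK
    have hS : Sim A (Ext dec A (mE A)) _ := sim_prefix (fun w => rfl)
    refine ⟨A, mE A, mE_ext A, ?_, fun L hL => ?_⟩
    · intro O hO C hC
      have key : ¬ HasTComplete O C := by
        rintro ⟨L, hL, hc⟩
        simp only [Set.mem_insert_iff, Set.mem_singleton_iff] at hO hC
        rcases hO with rfl | rfl
        · rcases hC with rfl | rfl | rfl
          · obtain ⟨B, h1, h2, h3⟩ := h L (Or.inl (inR_sub hS hL.1))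
            exact h3 ((hc B h1).sub (fun w => rfl) rfl)
          · obtain ⟨B, h1, h2, h3⟩ := h L (Or.inl (inR_sub hS hL))
            exact h3 ((hc B h1.1).sub (fun w => rfl) rfl)
          · obtain ⟨B, h1, h2, h3⟩ := h L (Or.inr (inBPP_sub hS hL))
            exact h3 ((hc B h2).sub (fun w => rfl) rfl)
        · rcases hC with rfl | rfl | rfl
          · obtain ⟨B, h1, h2, h3⟩ := h L (Or.inl hL.1)
            exact h3 (hc B (inZPP_sub hS h1))
          · obtain ⟨B, h1, h2, h3⟩ := h L (Or.inl hL)
            exact h3 (hc B (inR_sub hS h1.1))
          · obtain ⟨B, h1, h2, h3⟩ := h L (Or.inr hL)
            exact h3 (hc B (inBPP_sub hS h2))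
      exact ⟨fun h1 => key (HasTComplete.of_many_one h1), key⟩
    · obtain ⟨B, h1, -, h3⟩ := h L hL
      exact ⟨B, h1, h3⟩
  · obtain ⟨A, E, hE, L, hZA, hBA, hZO, hBO, h⟩ := pos_world hdec
    have hS : Sim A (Ext dec A E) _ := sim_prefix (fun w => rfl)
    refine ⟨A, E, hE, fun O hO C hC => ?_⟩
    simp only [Set.mem_insert_iff, Set.mem_singleton_iff] at hO hC
    rcases hO with rfl | rfl
    · have key : ∀ B : Set (List Bool), InR O B ∨ InBPP O B →
          ∃ f : List Bool → List Bool, PolyFn O f ∧ ∀ x, x ∈ B ↔ f x ∈ L := by
        intro B hB
        obtain ⟨f, h1, -, h3⟩ := h B (hB.imp (inR_sub hS) (inBPP_sub hS))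
        exact ⟨f, h1, h3⟩
      rcases hC with rfl | rfl | rfl
      · exact ⟨L, hZA, fun B hB => key B (Or.inl hB.1)⟩
      · exact ⟨L, hZA.1, fun B hB => key B (Or.inl hB)⟩
      · exact ⟨L, hBA, fun B hB => key B (Or.inr hB)⟩
    · have key : ∀ B : Set (List Bool), InR (Ext dec A E) B ∨ InBPP (Ext dec A E) B →
          ∃ f : List Bool → List Bool, PolyFn (Ext dec A E) f ∧ ∀ x, x ∈ B ↔ f x ∈ L := by
        intro B hB
        obtain ⟨f, -, h2, h3⟩ := h B hB
        exact ⟨f, h2, h3⟩
      rcases hC with rfl | rfl | rfl
      · exact ⟨L, hZO, fun B hB => key B (Or.inl hB.1)⟩
      · exact ⟨L, hZO.1, fun B hB => key B (Or.inl hB)⟩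
      · exact ⟨L, hBO, fun B hB => key B (Or.inr hB)⟩

end Pool.Agent.Results.MP_a8d575_lc.Affine
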