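import Pool.Agent.Helper99.Alg.Neg

set_option autoImplicit false

/-!
# Complete sets for ZPP, R and BPP: no algebrizing technique yields one

Let `K i` be any family of finite fields (for instance all finite fields) and let the strings `s` be
read, in any way, as queries `(m, i, y, b)` with `m ≤ |s|`: number of variables, field, point of
`(K i)^m`, Boolean function of the value. For an oracle `A` and a family `E` of low-degree
extensions of `A` let `O = Ext dec A E` be the oracle that answers both queries to `A` and queries
to `E`.

There are `A` and an extension `E` of degree at most two in each variable such that relative to `A`
and relative to `O` none of the three classes has a complete set, not even for Turing reductions.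
Moreover no set in `R^O ∪ BPP^O` is hard for `ZPP^A` under polynomial time Turing reductions
computed with `O`. So techniques that algebrize in the sense of Aaronson and Wigderson do not show
that one of the three classes has a complete set. They do not show the contrary either: there are
`A` and a multilinear extension `E` of `A` with `NP^O ⊆ P^A` (Aaronson and Wigderson); a direct
construction for the classes considered here is `pos_world` in `Alg/Pos.lean`.

The construction: for every probabilistic machine `P` and every `x` there are two blocks of strings;
we make sure that more than three quarters of one of them and nothing of the other one is in `A`, or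
that `P` loses its gap in all extensions of the present stage (then `P` is never served again). The
test set of `P` consists of the `x` for which the first block is the dense one; it is in ZPP if `P`
keeps its gap. Fix a program `g` for a Turing reduction and a long `x`, and consider all contents of
the two blocks together with all values of the extensions over the finitely many fields which
matter. If `P` keeps its gap at all contents, then the answers to the questions of `g` about the set
of `P` can be estimated by running `P` several times, so that `g` becomes a probabilistic machine
with a gap and few queries. A query to the extension need not be local; but for a set `S` of points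
of a field all but `|S|` points `w` of the cube have a polynomial of degree at most two in each
variable that vanishes on `S` and on the cube except at `w` (`Alg/Poly.lean`, `exists_flip`). The
main fact (`Alg/Comb.lean`, `exists_dense`): if a machine with a gap and few queries answers 0 at
the majority of the contents in which both blocks are empty, then it answers 0 at some content in
which one of them is empty and the other one, which may be chosen, is more than three quarters full;
the same holds for the answer 1. The block is filled in batches: after freezing few values the
answer 0 is given at nearly all contents that agree with them, and then most batches of points can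
be added without disturbing most of these contents. So `g` answers wrongly at some content, which is
chosen for the next stage.
-/

namespace Pool.Agent.Results.MP_a8d575_lc.Algebrization

open Pool.Agent.Helper56.PT Pool.Agent.Helper99.Alg MvPolynomial

/-- For every family of finite fields and every coding of queries there are an oracle and an
extension of degree at most two in each variable relative to which ZPP, R and BPP have no complete
sets, neither for many-one nor for Turing reductions; moreover no set in R or BPP relative to the
extension is hard for ZPP relative to the oracle, for Turing reductions relative to the extension. -/
theorem result {ι : Type} {K : ι → Type} [∀ i, Field (K i)] [∀ i, Finite (K i)]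
    (dec : List Bool → Query ι K) (hdec : ∀ s, (dec s).m ≤ s.length) :
    ∃ (A : List Bool → Bool) (E : ∀ (m : ℕ) (i : ι), MvPolynomial (Fin m) (K i)),
      IsExt 2 A E ∧
      (∀ O ∈ ({A, Ext dec A E} : Set (List Bool → Bool)),
        ∀ C ∈ ({InZPP O, InR O, InBPP O} : Set (Set (List Bool) → Prop)),
          ¬ HasComplete O C ∧ ¬ HasTComplete O C) ∧
      ∀ L : Set (List Bool), InR (Ext dec A E) L ∨ InBPP (Ext dec A E) L →
        ∃ B : Set (List Bool), InZPP A B ∧ ¬ TRed (Ext dec A E) B L := by
  obtain ⟨A, E, hE, h⟩ := neg_world hdec
  have hS : Sim A (Ext dec A E) _ := sim_prefix (fun w => rfl)
  refine ⟨A, E, hE, ?_, fun L hL => ?_⟩
  · intro O hO C hC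
    have key : ¬ HasTComplete O C := by
      rintro ⟨L, hL, hc⟩
      simp only [Set.mem_insert_iff, Set.mem_singleton_iff] at hO hC
      rcases hO with rfl | rfl
      · rcases hC with rfl | rfl | rfl
        · obtain ⟨B, h1, h2, h3⟩ := h L (Or.inl (inR_sub hS hL.1))
          exact h3 ((hc B h1).sub (fun w => rfl) rfl)
        · obtain ⟨B, h1, h2, h3⟩ := h L (Or.inl (inR_sub hS hL))
          exact h3 ((hc B h1.1).sub (fun w => rfl) rfl)
        · obtain ⟨B, h1, h2, h3⟩ := h L (Or.inr (inBPP_sub hS hL))
          exact h3 ((hc B h2).sub (fun w => rfl) rfl)
      · rcases hC with rfl | rfl | rfl
        · obtain ⟨B, h1, h2, h3⟩ := h L (Or.inl hL.1)
          exact h3 (hc B (inZPP_sub hS h1))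
        · obtain ⟨B, h1, h2, h3⟩ := h L (Or.inl hL)
          exact h3 (hc B (inR_sub hS h1.1))
        · obtain ⟨B, h1, h2, h3⟩ := h L (Or.inr hL)
          exact h3 (hc B (inBPP_sub hS h2))
    exact ⟨fun h1 => key (HasTComplete.of_many_one h1), key⟩
  · obtain ⟨B, h1, -, h3⟩ := h L hL
    exact ⟨B, h1, h3⟩

end Pool.Agent.Results.MP_a8d575_lc.Algebrization
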