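import Pool.Agent.Helper56.PT.Lim
import Pool.Agent.Helper56.PT.Wg
import Pool.Agent.Helper56.PT.Vi
import Pool.Agent.Helper56.PT.Hd

/-!
# Complete sets for ZPP, R and BPP: the three cases are independent for relativizing proofs

For each of the eight subsets `S` of the three classes ZPP, R and BPP there is an oracle relative to
which exactly the classes in `S` have complete sets (for polynomial-time many-one reductions).

All three: single strings code PP. Exactly R and BPP: R = NP and BPP = PP, with free pairs of
blocks against ZPP. Exactly BPP: the oracle codes a solution of the promise problem behind BPP,
with preferred answers outside of the promise. Exactly ZPP and BPP: moreover single strings code
the languages of all pairs of machines for ZPP which stay legitimate in all well-formed extensions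
of the stage at which they are coded. Exactly ZPP; exactly ZPP and R: the oracle codes, in single
strings, the languages of all such pairs (of all such machines for R). Exactly R; none: blocks code
the languages of all such machines for R (of no machine).

The diagonalisation against machines for BPP: for every content of a large test block the coded
answers are predicted by functions with small certificates, built from the certificates at very
sparse and very dense contents. A machine for BPP with a gap at all contents computes a total
function with small certificates, so it cannot separate sparse and dense contents; otherwise there
is a content without gap. There a wrong prediction can only be the answer 1 of a machine for R which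
rejects with certainty; then there are very many disjoint small changes of the content which lead
to acceptance, and one of them makes this machine illegitimate without disturbing the other ones.
Against machines for R, if BPP is coded: either there are very many disjoint small changes of the
oracle, with accepting computations of all pairs that answer coded queries, which lead to
acceptance, and for one of them the probability of acceptance stays small; or a small set meets all
of them, and is frozen. Against pairs of machines for ZPP: an accepting computation is frozen
together with accepting computations for all coded answers 1 in it.
-/

namespace Pool.Agent.Results.MP_a8d575_lc.AllPatterns

open Pool.Agent.Helper56.PT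

/-- Every pattern of existence and non-existence of complete sets for ZPP, R and BPP is realised by
an oracle. -/
theorem result (z r b : Prop) : ∃ O : List Bool → Bool,
    (HasComplete O (InZPP O) ↔ z) ∧ (HasComplete O (InR O) ↔ r) ∧
      (HasComplete O (InBPP O) ↔ b) := by
  by_cases hz : z <;> by_cases hr : r <;> by_cases hb : b <;>
    simp only [hz, hr, hb, iff_true, iff_false]
  · exact exists_oracle8
  · exact exists_oracle4
  · exact Hw.exists_oracle9
  · exact exists_oracle3
  · obtain ⟨O, h1, h2, h3⟩ := exists_oracle
    exact ⟨O, h3, h1, h2⟩
  · exact Fw.exists_oracle6
  · obtain ⟨O, h1, h2, h3⟩ := exists_oracle2
    exact ⟨O, h3, h2, h1⟩
  · exact Fw.exists_oracle7

end Pool.Agent.Results.MP_a8d575_lc.AllPatterns
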