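import Pool.Agent.Helper56.PT.BndExp

/-!
# No complete sets under reductions of bounded exponent

For every oracle `O` and every `k`, none of the classes ZPP, R, BPP relative to `O` has a set
that is complete under many-one reductions computable in time `O(n ^ k)` relative to `O`.

Proof: let `A` be a set of the class. `A` is decidable and nontrivial. By diagonalisation with
delay (the positions of a long chain `x_0, x_1, …, x_m` of strings carry
`B(x_j) = A(f(x_{j+1}))`, where `f` is the reduction treated on the chain, and
`B(x_m) = 1 - A(f(x_0))`, found by brute force) there is a polynomial time function `F` such that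
`F⁻¹(A)` is not reducible to `A` in time `O(n ^ k)`; and `F⁻¹(A)` belongs to the class.
-/

namespace Pool.Agent.Results.MP_a8d575_lc.BoundedExponent

open Pool.Agent.Helper56.PT

/-- No set in ZPP, R or BPP (relative to an arbitrary oracle `O`) is complete for the class
under many-one reductions computable in time `O(n ^ k)`. -/
theorem result (O : List Bool → Bool) (k : ℕ) (C : Set (List Bool) → Prop)
    (hC : C = InZPP O ∨ C = InR O ∨ C = InBPP O) :
    ¬ ∃ A : Set (List Bool), C A ∧ ∀ B : Set (List Bool), C B →
      ∃ f : List Bool → List Bool, TimeFn O k f ∧ ∀ x, x ∈ B ↔ f x ∈ A := by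
  rcases hC with rfl | rfl | rfl
  · exact no_complete k _ (fun A hA => hA.1.decidable)
      (fun A f hf hA => hA.preimage hf) ⟨nonempty_inR, nonempty_co_inR⟩
  · exact no_complete k _ (fun A hA => hA.decidable) (fun A f hf hA => hA.preimage hf) nonempty_inR
  · exact no_complete k _ (fun A hA => hA.decidable) (fun A f hf hA => hA.preimage hf)
      nonempty_inBPP

end Pool.Agent.Results.MP_a8d575_lc.BoundedExponent
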